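import Mathlib

/-!
Two coprime numbers composed of primes in `(j, m]`, close to each other and congruent modulo a
large power of `2`.
-/

namespace Pool.Agent.U168.HY

open Finset

/-- `|Z - Y|` -/
def tt (Y Z : ℕ) : ℕ := ((Z : ℤ) - Y).natAbs

theorem tt_pos {Y Z : ℕ} (h : Y ≠ Z) : 0 < tt Y Z := by
  unfold tt
  omega

theorem tt_comm (Y Z : ℕ) : tt Y Z = tt Z Y := by
  unfold tt
  omega

/-- The primes in `(j, m]`. -/
def PP (j m : ℕ) : Finset ℕ := (Finset.range (m + 1)).filter (fun p => p.Prime ∧ j < p)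

theorem mem_PP {j m p : ℕ} : p ∈ PP j m ↔ p ≤ m ∧ p.Prime ∧ j < p := by
  unfold PP
  rw [mem_filter, mem_range, Nat.lt_succ_iff]

/-- `∏ p ^ e p` -/
def pr (P : Finset ℕ) (e : ℕ → ℕ) : ℕ := ∏ p ∈ P, p ^ e p

theorem fact_pr {P : Finset ℕ} (hP : ∀ p ∈ P, p.Prime) (e : ℕ → ℕ) {q : ℕ} (hq : q ∈ P) :
    (pr P e).factorization q = e q := by
  unfold pr
  rw [Nat.factorization_prod (fun p hp => pow_ne_zero _ (hP p hp).ne_zero),
    Finsupp.finsetSum_apply, Finset.sum_eq_single q]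
  · rw [Nat.factorization_pow, Finsupp.smul_apply, (hP q hq).factorization_self]
    simp
  · intro r hr hrq
    rw [Nat.factorization_pow, Finsupp.smul_apply, Nat.factorization_eq_zero_of_not_dvd, smul_zero]
    intro h
    exact hrq ((Nat.prime_dvd_prime_iff_eq (hP q hq) (hP r hr)).mp h).symm
  · intro h
    exact absurd hq h

theorem prod_PP_le (j m : ℕ) : ∏ p ∈ PP j m, p ≤ 4 ^ m := by
  refine le_trans ?_ (primorial_le_four_pow m)
  unfold primorial
  refine Finset.prod_le_prod_of_subset_of_one_le' ?_ ?_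
  · intro p hp
    rw [mem_PP] at hp
    rw [mem_filter, mem_range]
    exact ⟨by omega, hp.2.1⟩
  · intro _ hp _
    rw [mem_filter] at hp
    exact hp.2.one_le

theorem pr_pos {j m : ℕ} (e : ℕ → ℕ) : 0 < pr (PP j m) e :=
  Finset.prod_pos fun p hp => pow_pos (mem_PP.mp hp).2.1.pos _

theorem pr_le {j m B : ℕ} (e : ℕ → ℕ) (he : ∀ p, e p ≤ B) :
    pr (PP j m) e ≤ 4 ^ (m * B) := by
  calc pr (PP j m) e ≤ ∏ p ∈ PP j m, p ^ B := by
        refine Finset.prod_le_prod' fun p hp => ?_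
        exact Nat.pow_le_pow_right (mem_PP.mp hp).2.1.pos (he p)
    _ = (∏ p ∈ PP j m, p) ^ B := by rw [Finset.prod_pow]
    _ ≤ (4 ^ m) ^ B := Nat.pow_le_pow_left (prod_PP_le j m) _
    _ = _ := by rw [← pow_mul]

theorem dvd_pr {j m : ℕ} (e : ℕ → ℕ) {p : ℕ} (hp : p.Prime) (h : p ∣ pr (PP j m) e) :
    j < p ∧ p ≤ m := by
  unfold pr at h
  rw [Prime.dvd_finsetProd_iff hp.prime] at h
  obtain ⟨q, hq, hpq⟩ := h
  have h1 := mem_PP.mp hq
  have : p = q := (Nat.prime_dvd_prime_iff_eq hp h1.2.1).mp (hp.dvd_of_dvd_pow hpq)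
  rw [this]
  exact ⟨h1.2.2, h1.1⟩

theorem exists_YZ0 {j m B k : ℕ} (hj : 2 ≤ j)
    (hcard : 2 ^ k * (2 * (m * B) + 1) < (B + 1) ^ (PP j m).card) :
    ∃ Y Z : ℕ, 0 < Y ∧ 0 < Z ∧ Y ≠ Z ∧ Y < 2 * Z ∧ Z < 2 * Y ∧ Nat.Coprime Y Z ∧
      2 ^ k ∣ tt Y Z ∧ (∀ p : ℕ, p.Prime → p ∣ Y * Z → j < p ∧ p ≤ m) ∧
      Y ≤ 4 ^ (m * B) ∧ Z ≤ 4 ^ (m * B) := by
  classical
  set P := PP j m with hP
  let ext : (P → Fin (B + 1)) → ℕ → ℕ := fun e p => if h : p ∈ P then (e ⟨p, h⟩ : ℕ) else 0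
  have hext : ∀ e p, ext e p ≤ B := by
    intro e p
    simp only [ext]
    split_ifs
    · exact Nat.lt_succ_iff.mp (e _).2
    · exact Nat.zero_le _
  let F : (P → Fin (B + 1)) → ℕ × ℕ := fun e => (pr P (ext e) % 2 ^ k, Nat.log 2 (pr P (ext e)))
  have hcd : (Finset.range (2 ^ k) ×ˢ Finset.range (2 * (m * B) + 1)).card <
      (Finset.univ : Finset (P → Fin (B + 1))).card := by
    rw [Finset.card_product, card_range, card_range, Finset.card_univ, Fintype.card_fun,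
      Fintype.card_fin, Fintype.card_coe]
    exact hcard
  obtain ⟨e, _, e', _, hne, hF⟩ := Finset.exists_ne_map_eq_of_card_lt_of_maps_to hcd
    (f := F) (fun e _ => by
      simp only [F, Finset.coe_product, Set.mem_prod, Finset.mem_coe, mem_range]
      refine ⟨Nat.mod_lt _ (by positivity), Nat.lt_succ_of_le ?_⟩
      have h1 : pr P (ext e) ≤ 2 ^ (2 * (m * B)) := by
        refine (pr_le _ (hext e)).trans (le_of_eq ?_)
        rw [pow_mul 2 2]
        norm_num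
      calc Nat.log 2 (pr P (ext e)) ≤ Nat.log 2 (2 ^ (2 * (m * B))) := Nat.log_mono_right h1
        _ = 2 * (m * B) := Nat.log_pow (by norm_num) _)
  set A := pr P (ext e) with hA
  set A' := pr P (ext e') with hA'
  have hA0 : 0 < A := pr_pos _
  have hA0' : 0 < A' := pr_pos _
  have hAA : A ≠ A' := by
    intro h
    apply hne
    funext ⟨p, hp⟩
    have h1 := fact_pr (fun p hp => (mem_PP.mp hp).2.1) (ext e) hp
    have h2 := fact_pr (fun p hp => (mem_PP.mp hp).2.1) (ext e') hp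
    rw [← hA, h, hA', h2] at h1
    simp only [ext, hp, dif_pos] at h1
    exact (Fin.ext h1).symm
  have hmod : A % 2 ^ k = A' % 2 ^ k := congrArg Prod.fst hF
  have hlog : Nat.log 2 A = Nat.log 2 A' := by
    have h := congrArg Prod.snd hF
    exact h
  have h2A : A < 2 * A' := by
    calc A < 2 ^ (Nat.log 2 A).succ := Nat.lt_pow_succ_log_self (by norm_num) _
      _ = 2 * 2 ^ Nat.log 2 A' := by rw [hlog, Nat.succ_eq_add_one, pow_succ]; ring
      _ ≤ 2 * A' := Nat.mul_le_mul_left _ (Nat.pow_log_le_self 2 hA0'.ne')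
  have h2A' : A' < 2 * A := by
    calc A' < 2 ^ (Nat.log 2 A').succ := Nat.lt_pow_succ_log_self (by norm_num) _
      _ = 2 * 2 ^ Nat.log 2 A := by rw [← hlog, Nat.succ_eq_add_one, pow_succ]; ring
      _ ≤ 2 * A := Nat.mul_le_mul_left _ (Nat.pow_log_le_self 2 hA0.ne')
  set D := Nat.gcd A A' with hD
  have hD0 : 0 < D := Nat.gcd_pos_of_pos_left _ hA0
  obtain ⟨Y, hY⟩ : D ∣ A := Nat.gcd_dvd_left _ _
  obtain ⟨Z, hZ⟩ : D ∣ A' := Nat.gcd_dvd_right _ _
  have hcop : Nat.Coprime Y Z := by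
    have := Nat.coprime_div_gcd_div_gcd (m := A) (n := A') (by rw [← hD]; exact hD0)
    rw [← hD] at this
    rwa [Nat.div_eq_of_eq_mul_right hD0 hY, Nat.div_eq_of_eq_mul_right hD0 hZ] at this
  have hY0 : 0 < Y := Nat.pos_of_ne_zero fun h => by rw [h, mul_zero] at hY; omega
  have hZ0 : 0 < Z := Nat.pos_of_ne_zero fun h => by rw [h, mul_zero] at hZ; omega
  have hDodd : Nat.Coprime (2 ^ k) D := by
    apply Nat.Coprime.pow_left
    rw [Nat.Prime.coprime_iff_not_dvd Nat.prime_two]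
    intro h
    have h1 : 2 ∣ A := h.trans (Nat.gcd_dvd_left _ _)
    have h2 := dvd_pr _ Nat.prime_two h1
    omega
  refine ⟨Y, Z, hY0, hZ0, ?_, ?_, ?_, hcop, ?_, ?_, ?_, ?_⟩
  · intro h
    apply hAA
    rw [hY, hZ, h]
  · rw [hY, hZ] at h2A
    have : D * Y < D * (2 * Z) := by linarith
    exact lt_of_mul_lt_mul_left this (Nat.zero_le _)
  · rw [hY, hZ] at h2A'
    have : D * Z < D * (2 * Y) := by linarith
    exact lt_of_mul_lt_mul_left this (Nat.zero_le _)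
  · have h1 : ((2 ^ k : ℕ) : ℤ) ∣ (A' : ℤ) - A := by
      have := (Nat.modEq_iff_dvd (n := 2 ^ k) (a := A) (b := A')).mp hmod
      exact this
    have h2 : (A' : ℤ) - A = D * ((Z : ℤ) - Y) := by
      rw [hY, hZ]; push_cast; ring
    rw [h2] at h1
    have h3 : (2 ^ k : ℕ) ∣ D * tt Y Z := by
      have h4 := Int.natAbs_dvd_natAbs.mpr h1
      rw [Int.natAbs_mul, Int.natAbs_natCast, Int.natAbs_natCast] at h4
      exact h4
    exact hDodd.dvd_of_dvd_mul_left h3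
  · intro p hp h
    rcases (Nat.Prime.dvd_mul hp).mp h with h | h
    · exact dvd_pr (ext e) hp (h.trans ⟨D, by rw [← hP, ← hA, hY]; ring⟩)
    · exact dvd_pr (ext e') hp (h.trans ⟨D, by rw [← hP, ← hA', hZ]; ring⟩)
  · calc Y ≤ D * Y := Nat.le_mul_of_pos_left _ hD0
      _ = A := hY.symm
      _ ≤ _ := pr_le _ (hext e)
  · calc Z ≤ D * Z := Nat.le_mul_of_pos_left _ hD0
      _ = A' := hZ.symm
      _ ≤ _ := pr_le _ (hext e')

/-- The product of the primes `p ∣ n`, `j < p`. -/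
def radj (j n : ℕ) : ℕ := ∏ p ∈ n.primeFactors.filter (fun p => j < p), p

theorem dvd_radj {j n p : ℕ} (hp : p.Prime) (hn : n ≠ 0) : p ∣ radj j n ↔ p ∣ n ∧ j < p := by
  unfold radj
  rw [Prime.dvd_finsetProd_iff hp.prime]
  constructor
  · rintro ⟨q, hq, hpq⟩
    rw [Finset.mem_filter, Nat.mem_primeFactors] at hq
    have : p = q := (Nat.prime_dvd_prime_iff_eq hp hq.1.1).mp hpq
    rw [this]
    exact ⟨hq.1.2.1, hq.2⟩
  · rintro ⟨h, h'⟩
    exact ⟨p, by rw [Finset.mem_filter, Nat.mem_primeFactors]; exact ⟨⟨hp, h, hn⟩, h'⟩, dvd_rfl⟩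

theorem radj_pos (j n : ℕ) : 0 < radj j n := Finset.prod_pos fun p hp => by
  rw [Finset.mem_filter, Nat.mem_primeFactors] at hp
  exact hp.1.1.pos

theorem radj_dvd (j n : ℕ) : radj j n ∣ n :=
  (Finset.prod_dvd_prod_of_subset _ _ _ (Finset.filter_subset _ _)).trans
    (Nat.prod_primeFactors_dvd n)

theorem radj_squarefree (j n : ℕ) : Squarefree (radj j n) := by
  rw [Nat.squarefree_iff_prime_squarefree]
  intro q hq hdvd
  have h0 : radj j n ≠ 0 := (radj_pos j n).ne'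
  have h3 : 2 ≤ (radj j n).factorization q := by
    rw [← sq] at hdvd
    exact (hq.pow_dvd_iff_le_factorization h0).mp hdvd
  have h2 : (radj j n).factorization q ≤ 1 := by
    unfold radj
    rw [Nat.factorization_prod (fun p hp => (Nat.prime_of_mem_primeFactors
      (Finset.mem_filter.mp hp).1).ne_zero), Finsupp.finsetSum_apply]
    by_cases hqT : q ∈ n.primeFactors.filter (fun p => j < p)
    · rw [Finset.sum_eq_single q]
      · rw [hq.factorization_self]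
      · intro r hr hrq
        exact Nat.factorization_eq_zero_of_not_dvd fun h =>
          hrq ((Nat.prime_dvd_prime_iff_eq hq (Nat.prime_of_mem_primeFactors
            (Finset.mem_filter.mp hr).1)).mp h).symm
      · intro h; exact absurd hqT h
    · rw [Finset.sum_eq_zero]
      · exact Nat.zero_le _
      · intro r hr
        exact Nat.factorization_eq_zero_of_not_dvd fun h => hqT (by
          rw [(Nat.prime_dvd_prime_iff_eq hq (Nat.prime_of_mem_primeFactors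
            (Finset.mem_filter.mp hr).1)).mp h]
          exact hr)
  omega

theorem radj_mul {j a b : ℕ} (h : Nat.Coprime a b) : radj j (a * b) = radj j a * radj j b := by
  unfold radj
  rw [h.primeFactors_mul, Finset.filter_union, Finset.prod_union]
  exact Finset.disjoint_filter_filter h.disjoint_primeFactors

/-- The two numbers, in the good order, and the twist. -/
theorem exists_YZw {j m B k : ℕ} (hj : 2 ≤ j)
    (hcard : 2 ^ k * (2 * (m * B) + 1) < (B + 1) ^ (PP j m).card) :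
    ∃ Y Z w : ℕ, 0 < Y ∧ 0 < Z ∧ Y ≠ Z ∧ 0 < w ∧ Nat.Coprime Y Z ∧ Nat.Coprime Y w ∧
      Squarefree w ∧ (∀ p : ℕ, p.Prime → p ∣ w → j < p) ∧
      (∀ p : ℕ, p.Prime → j < p → p ∣ tt Y Z * Z → p ∣ w) ∧
      tt Y Z ≤ Y ∧ tt Y Z ≤ Z ∧ w * 2 ^ k ≤ tt Y Z * radj j Z ∧
      radj j Y ^ 2 ≤ m ^ (PP j m).card ∧ radj j Y * radj j Z ≤ m ^ (PP j m).card ∧
      (∀ p : ℕ, p.Prime → p ∣ Y * Z → j < p) ∧ radj j Y ≤ 4 ^ m ∧ w ≤ 4 ^ (m * B + m) ∧
      (∃ p : ℕ, p.Prime ∧ j < p ∧ p ∣ Y * Z) := by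
  obtain ⟨Y, Z, hY, hZ, hYZ, h1, h2, hcop, hk, hpr, hYB, hZB, hrad⟩ : ∃ Y Z : ℕ, 0 < Y ∧ 0 < Z ∧
      Y ≠ Z ∧ Y < 2 * Z ∧ Z < 2 * Y ∧ Nat.Coprime Y Z ∧
      2 ^ k ∣ tt Y Z ∧ (∀ p : ℕ, p.Prime → p ∣ Y * Z → j < p ∧ p ≤ m) ∧
      Y ≤ 4 ^ (m * B) ∧ Z ≤ 4 ^ (m * B) ∧ radj j Y ≤ radj j Z := by
    obtain ⟨Y, Z, hY, hZ, hYZ, h1, h2, hcop, hk, hpr, hYB, hZB⟩ := exists_YZ0 hj hcard
    rcases le_total (radj j Y) (radj j Z) with h | h
    · exact ⟨Y, Z, hY, hZ, hYZ, h1, h2, hcop, hk, hpr, hYB, hZB, h⟩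
    · exact ⟨Z, Y, hZ, hY, hYZ.symm, h2, h1, hcop.symm, by rwa [tt_comm],
        fun p hp h => hpr p hp (by rwa [mul_comm]), hZB, hYB, h⟩
  have ht0 := tt_pos hYZ
  have hcopt : Nat.Coprime (tt Y Z) Z := by
    rw [Nat.coprime_iff_gcd_eq_one]
    by_contra hcon
    obtain ⟨p, hp, hpd⟩ := Nat.exists_prime_and_dvd hcon
    have hpt : p ∣ tt Y Z := hpd.trans (Nat.gcd_dvd_left _ _)
    have hpZ : p ∣ Z := hpd.trans (Nat.gcd_dvd_right _ _)
    have h3 : (p : ℤ) ∣ (Z : ℤ) - Y := Int.natCast_dvd.mpr hpt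
    have h4 : (p : ℤ) ∣ (Y : ℤ) := by
      have := dvd_sub (Int.natCast_dvd_natCast.mpr hpZ) h3
      rwa [sub_sub_cancel] at this
    have h5 : p ∣ Y := Int.natCast_dvd_natCast.mp h4
    exact hp.one_lt.ne' (Nat.dvd_one.mp (hcop ▸ Nat.dvd_gcd h5 hpZ))
  have hcopYt : Nat.Coprime Y (tt Y Z) := by
    rw [Nat.coprime_iff_gcd_eq_one]
    by_contra hcon
    obtain ⟨p, hp, hpd⟩ := Nat.exists_prime_and_dvd hcon
    have hpt : p ∣ tt Y Z := hpd.trans (Nat.gcd_dvd_right _ _)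
    have hpY : p ∣ Y := hpd.trans (Nat.gcd_dvd_left _ _)
    have h3 : (p : ℤ) ∣ (Z : ℤ) - Y := Int.natCast_dvd.mpr hpt
    have h4 : (p : ℤ) ∣ (Z : ℤ) := by
      have := dvd_add h3 (Int.natCast_dvd_natCast.mpr hpY)
      rwa [sub_add_cancel] at this
    have h5 : p ∣ Z := Int.natCast_dvd_natCast.mp h4
    exact hp.one_lt.ne' (Nat.dvd_one.mp (hcop ▸ Nat.dvd_gcd hpY h5))
  have hn0 : tt Y Z * Z ≠ 0 := (Nat.mul_pos ht0 hZ).ne'
  set w := radj j (tt Y Z * Z) with hw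
  have hw1 : w = radj j (tt Y Z) * radj j Z := radj_mul hcopt
  have hw2 : w * 2 ^ k ≤ tt Y Z * radj j Z := by
    have h3 : radj j (tt Y Z) * 2 ^ k ≤ tt Y Z := by
      refine Nat.le_of_dvd ht0 ?_
      refine Nat.Coprime.mul_dvd_of_dvd_of_dvd ?_ (radj_dvd _ _) hk
      apply Nat.Coprime.pow_right
      rw [Nat.coprime_comm, Nat.Prime.coprime_iff_not_dvd Nat.prime_two]
      intro h
      have := ((dvd_radj Nat.prime_two ht0.ne').mp h).2
      omega
    calc w * 2 ^ k = (radj j (tt Y Z) * 2 ^ k) * radj j Z := by rw [hw1]; ring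
      _ ≤ _ := Nat.mul_le_mul_right _ h3
  have hprod : radj j Y * radj j Z ≤ ∏ p ∈ PP j m, p := by
    rw [← radj_mul hcop]
    unfold radj
    refine Finset.prod_le_prod_of_subset_of_one_le' ?_ ?_
    · intro p hp
      rw [Finset.mem_filter, Nat.mem_primeFactors] at hp
      rw [mem_PP]
      have := hpr p hp.1.1 hp.1.2.1
      exact ⟨this.2, hp.1.1, this.1⟩
    · intro _ hp _
      exact (mem_PP.mp hp).2.1.one_le
  have hprod2 : ∏ p ∈ PP j m, p ≤ m ^ (PP j m).card :=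
    Finset.prod_le_pow_card _ _ _ fun p hp => (mem_PP.mp hp).1
  have hZ4 : radj j Z ≤ 4 ^ m := by
    calc radj j Z ≤ radj j Y * radj j Z := Nat.le_mul_of_pos_left _ (radj_pos _ _)
      _ ≤ _ := hprod.trans (prod_PP_le j m)
  have htY : tt Y Z ≤ Y := by unfold tt; omega
  have htZ : tt Y Z ≤ Z := by unfold tt; omega
  refine ⟨Y, Z, w, hY, hZ, hYZ, radj_pos _ _, hcop, ?_, radj_squarefree _ _,
    fun p hp h => ((dvd_radj hp hn0).mp h).2, fun p hp hjp h => (dvd_radj hp hn0).mpr ⟨h, hjp⟩,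
    htY, htZ, hw2, ?_, hprod.trans hprod2,
    fun p hp h => (hpr p hp h).1, ?_, ?_, ?_⟩
  · exact Nat.Coprime.coprime_dvd_right (radj_dvd _ _) (Nat.Coprime.mul_right hcopYt hcop)
  · rw [sq]
    exact (Nat.mul_le_mul_left _ hrad).trans (hprod.trans hprod2)
  · calc radj j Y ≤ radj j Y * radj j Z := Nat.le_mul_of_pos_right _ (radj_pos _ _)
      _ ≤ _ := hprod.trans (prod_PP_le j m)
  · calc w ≤ w * 2 ^ k := Nat.le_mul_of_pos_right _ (by positivity)
      _ ≤ tt Y Z * radj j Z := hw2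
      _ ≤ 4 ^ (m * B) * 4 ^ m := Nat.mul_le_mul (htY.trans hYB) hZ4
      _ = _ := by rw [← pow_add]
  · have h1 : Y * Z ≠ 1 := by
      intro h
      have hY1 := Nat.eq_one_of_mul_eq_one_right h
      have hZ1 := Nat.eq_one_of_mul_eq_one_left h
      exact hYZ (by rw [hY1, hZ1])
    obtain ⟨p, hp, hpd⟩ := Nat.exists_prime_and_dvd h1
    exact ⟨p, hp, (hpr p hp hpd).1, hpd⟩

end Pool.Agent.U168.HY
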