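import Pool.Agent.U168.HY.Key

namespace Pool.Agent.U168.HY

open Polynomial Pool.Agent.W318 Pool.Agent.Y678.SZ Finset NumberField Filter

/-- `π(m) ≤ #(j, m] + j` -/
theorem primeCounting_le (j m : ℕ) : Nat.primeCounting m ≤ (PP j m).card + j := by
  have h1 : Nat.primeCounting m = ((Finset.range (m + 1)).filter Nat.Prime).card := by
    rw [Nat.primeCounting, Nat.primeCounting', Nat.count_eq_card_filter_range]
  rw [h1]
  have h2 : (Finset.range (m + 1)).filter Nat.Prime ⊆ PP j m ∪ Finset.Icc 1 j := by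
    intro p hp
    rw [mem_filter, mem_range] at hp
    rw [mem_union, mem_PP, Finset.mem_Icc]
    by_cases h : j < p
    · exact Or.inl ⟨by omega, hp.2, h⟩
    · exact Or.inr ⟨hp.2.pos, by omega⟩
  refine (Finset.card_le_card h2).trans ((Finset.card_union_le _ _).trans ?_)
  rw [Nat.card_Icc]
  omega

theorem card_ge {u : ℕ} (hu : 3 ≤ u) :
    ((u : ℝ) ^ 2 * Real.log 2 - 3 * Real.log u) / (2 * Real.log u) - u ≤
      ((PP u (u ^ 2)).card : ℝ) := by
  have h1 := Chebyshev.pi_ge (u ^ 2)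
  have h2 : ((Nat.primeCounting (u ^ 2) : ℕ) : ℝ) ≤ ((PP u (u ^ 2)).card : ℝ) + u := by
    exact_mod_cast primeCounting_le u (u ^ 2)
  have hu' : (3 : ℝ) ≤ u := by exact_mod_cast hu
  have hlogpos : 0 < Real.log u := Real.log_pos (by linarith)
  have h3 : Real.log (((u ^ 2 : ℕ) : ℝ)) = 2 * Real.log u := by
    push_cast
    rw [Real.log_pow]
    norm_num
  have h4 : Real.log (((u ^ 2 : ℕ) : ℝ) + 1) ≤ 3 * Real.log u := by
    have : (((u ^ 2 : ℕ) : ℝ) + 1) ≤ (u : ℝ) ^ 3 := by
      push_cast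
      nlinarith [sq_nonneg (u : ℝ)]
    calc Real.log (((u ^ 2 : ℕ) : ℝ) + 1) ≤ Real.log ((u : ℝ) ^ 3) :=
          Real.log_le_log (by positivity) this
      _ = 3 * Real.log u := by rw [Real.log_pow]; norm_num
  rw [h3] at h1
  have h5 : ((u : ℝ) ^ 2 * Real.log 2 - 3 * Real.log u) / (2 * Real.log u) ≤
      ((((u ^ 2 : ℕ) : ℝ)) * Real.log 2 - Real.log (((u ^ 2 : ℕ) : ℝ) + 1)) /
        (2 * Real.log u) := by
    apply div_le_div_of_nonneg_right _ (by positivity)
    push_cast at h4 ⊢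
    linarith
  linarith

/-- `C log u ≤ ε u` for large `u`. -/
theorem log_small (C ε : ℝ) (hε : 0 < ε) : ∀ᶠ u : ℕ in atTop, C * Real.log u ≤ ε * u := by
  have h1 := (Real.isLittleO_log_id_atTop.comp_tendsto tendsto_natCast_atTop_atTop :
    (fun u : ℕ => Real.log (u : ℝ)) =o[atTop] fun u : ℕ => (u : ℝ))
  have h2 := h1.def (c := ε / (|C| + 1)) (by positivity)
  filter_upwards [h2, eventually_ge_atTop 1] with u hu hu1
  have hu1' : (1 : ℝ) ≤ u := by exact_mod_cast hu1
  simp only [Real.norm_eq_abs, Function.comp_apply, id_eq] at hu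
  rw [abs_of_nonneg (Real.log_nonneg hu1'), abs_of_nonneg (by linarith : (0 : ℝ) ≤ u)] at hu
  calc C * Real.log u ≤ (|C| + 1) * Real.log u := by
        apply mul_le_mul_of_nonneg_right _ (Real.log_nonneg hu1')
        linarith [le_abs_self C]
    _ ≤ (|C| + 1) * (ε / (|C| + 1) * u) := by
        apply mul_le_mul_of_nonneg_left hu (by positivity)
    _ = ε * u := by field_simp

/-- The gain. -/
theorem gain (a κ c0 q : ℝ) (ha : 0 < a) (_hκ : 0 ≤ κ) (hc0 : 0 ≤ c0) (hq : 0 ≤ q) :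
    ∀ᶠ u : ℕ in atTop, a * (Real.log 2) ^ 2 / 4 * ((u : ℝ) ^ 2 / Real.log u) ≤
      ((PP u (u ^ 2)).card : ℝ) * a * Real.log 2 -
        (u * κ * Real.log 4 + c0 + a * (Real.log 8 + q * Real.log u)) := by
  have hl2 : 0 < Real.log 2 := Real.log_pos (by norm_num)
  have hl4 : 0 < Real.log 4 := Real.log_pos (by norm_num)
  have hl8 : 0 < Real.log 8 := Real.log_pos (by norm_num)
  filter_upwards [log_small (a * Real.log 2 * (5 / 2) + κ * Real.log 4 + c0 + a * Real.log 8 +
    a * q) (a * (Real.log 2) ^ 2 / 4) (by positivity), eventually_ge_atTop 3] with u hu hu3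
  have hu' : (3 : ℝ) ≤ u := by exact_mod_cast hu3
  have hlog1 : 1 ≤ Real.log u := by
    rw [← Real.log_exp 1]
    exact Real.log_le_log (Real.exp_pos 1) (by
      have := Real.exp_one_lt_d9
      linarith)
  have hlogu : Real.log u ≤ u := (Real.log_le_sub_one_of_pos (by linarith)).trans (by linarith)
  have hcard := card_ge hu3
  have hlogpos : 0 < Real.log u := by linarith
  set ℓ := Real.log u with hℓ
  set U : ℝ := (u : ℝ) with hU
  have key : a * (Real.log 2) ^ 2 / 4 * (U ^ 2 / ℓ) ≤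
      (((U ^ 2 * Real.log 2 - 3 * ℓ) / (2 * ℓ) - U) * a * Real.log 2 -
        (U * κ * Real.log 4 + c0 + a * (Real.log 8 + q * ℓ))) := by
    have e1 : (((U ^ 2 * Real.log 2 - 3 * ℓ) / (2 * ℓ) - U) * a * Real.log 2 -
        (U * κ * Real.log 4 + c0 + a * (Real.log 8 + q * ℓ))) -
        a * (Real.log 2) ^ 2 / 4 * (U ^ 2 / ℓ) =
        (a * (Real.log 2) ^ 2 / 4 * U ^ 2 - (a * Real.log 2 * (3 / 2 * ℓ + U * ℓ) +
          ℓ * (U * κ * Real.log 4 + c0 + a * (Real.log 8 + q * ℓ)))) / ℓ := by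
      field_simp
      ring
    have e2 : a * Real.log 2 * (3 / 2 * ℓ + U * ℓ) +
          ℓ * (U * κ * Real.log 4 + c0 + a * (Real.log 8 + q * ℓ)) ≤
        (a * Real.log 2 * (5 / 2) + κ * Real.log 4 + c0 + a * Real.log 8 + a * q) * ℓ * U := by
      have f1 : ℓ ≤ ℓ * U := by nlinarith
      have f2 : ℓ * ℓ ≤ ℓ * U := by nlinarith
      have g1 : a * Real.log 2 * (3 / 2 * ℓ + U * ℓ) ≤ a * Real.log 2 * (5 / 2) * (ℓ * U) := by
        have : 3 / 2 * ℓ + U * ℓ ≤ 5 / 2 * (ℓ * U) := by linarith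
        calc _ ≤ a * Real.log 2 * (5 / 2 * (ℓ * U)) :=
              mul_le_mul_of_nonneg_left this (by positivity)
          _ = _ := by ring
      have g2 : ℓ * c0 ≤ c0 * (ℓ * U) := by
        rw [mul_comm]
        exact mul_le_mul_of_nonneg_left f1 hc0
      have g3 : ℓ * (a * Real.log 8) ≤ a * Real.log 8 * (ℓ * U) := by
        rw [mul_comm]
        exact mul_le_mul_of_nonneg_left f1 (by positivity)
      have g4 : a * q * (ℓ * ℓ) ≤ a * q * (ℓ * U) :=
        mul_le_mul_of_nonneg_left f2 (by positivity)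
      linarith
    have e3 : 0 ≤ (a * (Real.log 2) ^ 2 / 4 * U ^ 2 - (a * Real.log 2 * (3 / 2 * ℓ + U * ℓ) +
          ℓ * (U * κ * Real.log 4 + c0 + a * (Real.log 8 + q * ℓ)))) / ℓ := by
      apply div_nonneg _ hlogpos.le
      have e4 : (a * Real.log 2 * (5 / 2) + κ * Real.log 4 + c0 + a * Real.log 8 + a * q) *
          ℓ * U ≤ a * (Real.log 2) ^ 2 / 4 * U * U :=
        mul_le_mul_of_nonneg_right hu (by linarith)
      nlinarith
    linarith
  refine key.trans ?_
  have : ((U ^ 2 * Real.log 2 - 3 * ℓ) / (2 * ℓ) - U) * a * Real.log 2 ≤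
      ((PP u (u ^ 2)).card : ℝ) * a * Real.log 2 := by
    apply mul_le_mul_of_nonneg_right _ hl2.le
    exact mul_le_mul_of_nonneg_right hcard ha.le
  linarith

/-- The error term in terms of the product of the bad primes. -/
theorem errM {d q5 : ℕ} (hd : 1 ≤ d) (hq : 2 ≤ q5) {u : ℕ} (hu : 16 ≤ u) {M : ℕ} (h1 : u ≤ M)
    (h2 : M ≤ (4 ^ (8 * u ^ q5)) ^ d) :
    Real.log M ^ ((2 : ℝ) / q5) / Real.log (Real.log M) ≤
      12 * d * ((u : ℝ) ^ 2 / Real.log u) := by
  have hu' : (16 : ℝ) ≤ u := by exact_mod_cast hu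
  have hd' : (1 : ℝ) ≤ d := by exact_mod_cast hd
  have hq' : (2 : ℝ) ≤ q5 := by exact_mod_cast hq
  have hM' : (u : ℝ) ≤ M := by exact_mod_cast h1
  have hexp := Real.exp_one_lt_d9
  have hlu : Real.exp 1 ≤ Real.log u := by
    rw [Real.le_log_iff_exp_le (by linarith)]
    have h3 : Real.exp (Real.exp 1) ≤ Real.exp 2.7182818286 := Real.exp_le_exp.mpr hexp.le
    have h4 : Real.exp 2.7182818286 ≤ 16 := by
      rw [← Real.le_log_iff_exp_le (by norm_num)]
      have : Real.log 16 = 4 * Real.log 2 := by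
        rw [show (16 : ℝ) = 2 ^ 4 by norm_num, Real.log_pow]; norm_num
      rw [this]
      have := Real.log_two_gt_d9
      linarith
    linarith
  have hlM : Real.log u ≤ Real.log M := Real.log_le_log (by linarith) hM'
  have hll1 : 1 ≤ Real.log (Real.log M) := by
    rw [Real.le_log_iff_exp_le (by linarith [Real.exp_pos 1])]
    linarith
  have hlog0 : 0 < Real.log u := by linarith [Real.exp_pos 1]
  have hlogu : Real.log u ≤ u := (Real.log_le_sub_one_of_pos (by linarith)).trans (by linarith)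
  have he : (2 : ℝ) / q5 ≤ 1 := by
    rw [div_le_one (by linarith)]
    exact hq'
  have he0 : (0 : ℝ) ≤ (2 : ℝ) / q5 := by positivity
  have hM1 : 1 ≤ Real.log M := by
    have := Real.exp_one_gt_d9
    linarith
  rcases le_or_gt (Real.log M) u with hcase | hcase
  · have h5 : Real.log M ^ ((2 : ℝ) / q5) ≤ u := by
      calc Real.log M ^ ((2 : ℝ) / q5) ≤ Real.log M ^ (1 : ℝ) :=
            Real.rpow_le_rpow_of_exponent_le hM1 he
        _ = Real.log M := Real.rpow_one _
        _ ≤ u := hcase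
    calc Real.log M ^ ((2 : ℝ) / q5) / Real.log (Real.log M) ≤ u / 1 :=
          div_le_div₀ (by linarith) h5 one_pos hll1
      _ = 1 * 1 * ((u : ℝ) ^ 2 / u) := by field_simp
      _ ≤ 12 * d * ((u : ℝ) ^ 2 / Real.log u) := by
        apply mul_le_mul (by nlinarith) _ (by positivity) (by positivity)
        exact div_le_div_of_nonneg_left (by positivity) hlog0 hlogu
  · have h6 : Real.log M ≤ 12 * d * (u : ℝ) ^ q5 := by
      have h7 : (M : ℝ) ≤ ((4 : ℝ) ^ (8 * u ^ q5)) ^ d := by exact_mod_cast h2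
      have h8 : Real.log M ≤ Real.log (((4 : ℝ) ^ (8 * u ^ q5)) ^ d) :=
        Real.log_le_log (by linarith) h7
      rw [Real.log_pow, Real.log_pow] at h8
      have h9 : Real.log 4 ≤ 3 / 2 := by
        have : Real.log 4 = 2 * Real.log 2 := by
          rw [show (4 : ℝ) = 2 ^ 2 by norm_num, Real.log_pow]; norm_num
        rw [this]
        have := Real.log_two_lt_d9
        linarith
      push_cast at h8
      have h10 : (0 : ℝ) ≤ 8 * (u : ℝ) ^ q5 := by positivity
      calc Real.log M ≤ d * (8 * (u : ℝ) ^ q5 * Real.log 4) := h8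
        _ ≤ d * (8 * (u : ℝ) ^ q5 * (3 / 2)) := by gcongr
        _ = _ := by ring
    have h11 : Real.log M ^ ((2 : ℝ) / q5) ≤ 12 * d * (u : ℝ) ^ 2 := by
      calc Real.log M ^ ((2 : ℝ) / q5) ≤ (12 * d * (u : ℝ) ^ q5) ^ ((2 : ℝ) / q5) :=
            Real.rpow_le_rpow (by linarith) h6 he0
        _ = (12 * d : ℝ) ^ ((2 : ℝ) / q5) * ((u : ℝ) ^ q5) ^ ((2 : ℝ) / q5) :=
            Real.mul_rpow (by positivity) (by positivity)
        _ ≤ 12 * d * (u : ℝ) ^ 2 := by
          have e1 : (12 * d : ℝ) ^ ((2 : ℝ) / q5) ≤ 12 * d := by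
            calc (12 * d : ℝ) ^ ((2 : ℝ) / q5) ≤ (12 * d : ℝ) ^ (1 : ℝ) :=
                  Real.rpow_le_rpow_of_exponent_le (by nlinarith) he
              _ = _ := Real.rpow_one _
          have e2 : ((u : ℝ) ^ q5) ^ ((2 : ℝ) / q5) = (u : ℝ) ^ 2 := by
            rw [← Real.rpow_natCast (u : ℝ) q5, ← Real.rpow_mul (by linarith),
              mul_div_cancel₀ _ (by linarith : (q5 : ℝ) ≠ 0)]
            exact_mod_cast Real.rpow_natCast (u : ℝ) 2
          rw [e2]
          exact mul_le_mul_of_nonneg_right e1 (by positivity)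
    have h12 : Real.log u ≤ Real.log (Real.log M) :=
      Real.log_le_log (by linarith) hcase.le
    calc Real.log M ^ ((2 : ℝ) / q5) / Real.log (Real.log M) ≤
          12 * d * (u : ℝ) ^ 2 / Real.log u := div_le_div₀ (by positivity) h11 hlog0 h12
      _ = _ := by ring

/-- **Main theorem.** -/
theorem main (g : ℕ) (hg : 2 ≤ g) : ∃ c : ℝ, 0 < c ∧ ∃ f : ℕ → ℤ[X],
    ∀ (K : Type) [Field K] [NumberField K],
      (∀ j, IsHyp g ((f j).map (Int.castRingHom K))) ∧
      Tendsto (fun j => badNorm g ((f j).map (Int.castRingHom K))) atTop atTop ∧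
      ∀ᶠ j in atTop,
        (badNorm g ((f j).map (Int.castRingHom K)) : ℝ) ^ (kap g + (4 * g + 2)) *
          Real.exp (c * (Real.log (badNorm g ((f j).map (Int.castRingHom K))) ^
              ((2 : ℝ) / (((g + 1) / 2 + 5 : ℕ) : ℝ)) /
            Real.log (Real.log (badNorm g ((f j).map (Int.castRingHom K)))))) ≤
        (discNorm g ((f j).map (Int.castRingHom K)) : ℝ) := by
  set a : ℝ := 4 * g + 2 with ha
  have ha0 : 0 < a := by positivity
  have hC0 : 1 ≤ C0 g := by
    have : 0 < C0 g := by unfold C0; positivity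
    exact this
  have hgain := gain a (kap0 g) (Real.log (C0 g)) (((g + 1) / 2 + 5 : ℕ) : ℝ) ha0
    (Nat.cast_nonneg _) (Real.log_nonneg (by exact_mod_cast hC0)) (Nat.cast_nonneg _)
  have hl2 : 0 < Real.log 2 := Real.log_pos (by norm_num)
  -- the number of primes
  have hs : ∀ᶠ u : ℕ in atTop, 3 ≤ (PP u (u ^ 2)).card := by
    have h1 := gain 1 1 3 0 one_pos zero_le_one (by norm_num) le_rfl
    filter_upwards [h1, eventually_ge_atTop 3] with u hu hu3
    have hu' : (3 : ℝ) ≤ u := by exact_mod_cast hu3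
    have hlogpos : 0 < Real.log u := Real.log_pos (by linarith)
    have h2 : 0 ≤ (1 : ℝ) * (Real.log 2) ^ 2 / 4 * ((u : ℝ) ^ 2 / Real.log u) := by positivity
    have h3 : 0 ≤ Real.log 4 := Real.log_nonneg (by norm_num)
    have h8 : 0 ≤ Real.log 8 := Real.log_nonneg (by norm_num)
    have h4 : Real.log 2 < 1 := by have := Real.log_two_lt_d9; linarith
    have h5 : (3 : ℝ) ≤ ((PP u (u ^ 2)).card : ℝ) := by
      have h6 : (3 : ℝ) ≤ ((PP u (u ^ 2)).card : ℝ) * Real.log 2 := by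
        have : 0 ≤ (u : ℝ) * 1 * Real.log 4 := by positivity
        linarith
      have h7 : ((PP u (u ^ 2)).card : ℝ) * Real.log 2 ≤ ((PP u (u ^ 2)).card : ℝ) * 1 :=
        mul_le_mul_of_nonneg_left h4.le (Nat.cast_nonneg _)
      linarith
    exact_mod_cast h5
  obtain ⟨u0, hu0⟩ := eventually_atTop.mp (hgain.and (hs.and (eventually_ge_atTop (g + 17))))
  choose f hf using fun j : ℕ => key hg (u := j + u0) (by
    have := (hu0 (j + u0) (by omega)).2.2; omega) (hu0 (j + u0) (by omega)).2.1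
  refine ⟨a * (Real.log 2) ^ 2 / 48, by positivity, f, fun K _ _ => ⟨fun j => (hf j K).1, ?_, ?_⟩⟩
  · refine tendsto_atTop.mpr fun b => ?_
    filter_upwards [eventually_ge_atTop (b + (discr K).natAbs)] with j hj
    have := ((hf j K).2 (by omega)).1
    omega
  · filter_upwards [eventually_ge_atTop (discr K).natAbs] with j hj
    obtain ⟨h1, h2, h3⟩ := (hf j K).2 (by omega)
    obtain ⟨hg1, _, hg3⟩ := hu0 (j + u0) (by omega)
    set u := j + u0 with hu
    set M := badNorm g ((f j).map (Int.castRingHom K)) with hM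
    set Δ := discNorm g ((f j).map (Int.castRingHom K)) with hΔ
    set d := Module.finrank ℚ K with hd
    have hd1 : 1 ≤ d := Module.finrank_pos
    have herr := errM (q5 := (g + 1) / 2 + 5) hd1 (by omega) (by omega : 16 ≤ u) h1 h2
    have hd' : (1 : ℝ) ≤ d := by exact_mod_cast hd1
    have hu' : (16 : ℝ) ≤ u := by exact_mod_cast (by omega : 16 ≤ u)
    have hlogpos : 0 < Real.log u := Real.log_pos (by linarith)
    have hM0 : (0 : ℝ) < M := by
      have : 0 < M := by omega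
      exact_mod_cast this
    set s := (PP u (u ^ 2)).card with hs'
    -- the key inequality in the reals
    have h3' : (M : ℝ) ^ kap0 g * (2 : ℝ) ^ (s * (4 * g + 2) * d) ≤
        (((4 : ℝ) ^ u) ^ kap0 g * (C0 g : ℝ) * (8 * (u : ℝ) ^ ((g + 1) / 2 + 5)) ^ (4 * g + 2)) ^ d
          * (Δ : ℝ) := by exact_mod_cast h3
    have hC0' : (0 : ℝ) < (C0 g : ℝ) := by exact_mod_cast hC0
    set W : ℝ := ((4 : ℝ) ^ u) ^ kap0 g * (C0 g : ℝ) *
      (8 * (u : ℝ) ^ ((g + 1) / 2 + 5)) ^ (4 * g + 2) with hW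
    have hW0 : 0 < W := by positivity
    have hWlog : Real.log W = u * (kap0 g : ℝ) * Real.log 4 + Real.log (C0 g) +
        a * (Real.log 8 + (((g + 1) / 2 + 5 : ℕ) : ℝ) * Real.log u) := by
      rw [hW, Real.log_mul (by positivity) (by positivity), Real.log_mul (by positivity)
        (by positivity), Real.log_pow, Real.log_pow, Real.log_pow, Real.log_mul (by norm_num)
        (by positivity), Real.log_pow, ha]
      push_cast
      ring
    have hexp : Real.exp (a * (Real.log 2) ^ 2 / 48 * (Real.log M ^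
        ((2 : ℝ) / (((g + 1) / 2 + 5 : ℕ) : ℝ)) / Real.log (Real.log M))) * W ^ d ≤
        (2 : ℝ) ^ (s * (4 * g + 2) * d) := by
      rw [← Real.exp_log (pow_pos hW0 d), ← Real.exp_add]
      rw [← Real.exp_log (show (0 : ℝ) < (2 : ℝ) ^ (s * (4 * g + 2) * d) by positivity)]
      apply Real.exp_le_exp.mpr
      rw [Real.log_pow, Real.log_pow, hWlog]
      have e1 : a * (Real.log 2) ^ 2 / 48 * (Real.log M ^
          ((2 : ℝ) / (((g + 1) / 2 + 5 : ℕ) : ℝ)) / Real.log (Real.log M)) ≤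
          a * (Real.log 2) ^ 2 / 48 * (12 * d * ((u : ℝ) ^ 2 / Real.log u)) :=
        mul_le_mul_of_nonneg_left herr (by positivity)
      have e2 : a * (Real.log 2) ^ 2 / 48 * (12 * d * ((u : ℝ) ^ 2 / Real.log u)) =
          d * (a * (Real.log 2) ^ 2 / 4 * ((u : ℝ) ^ 2 / Real.log u)) := by ring
      have e3 := mul_le_mul_of_nonneg_left hg1 (by linarith : (0 : ℝ) ≤ d)
      have e4 : (((s * (4 * g + 2) * d : ℕ) : ℝ)) * Real.log 2 =
          d * ((s : ℝ) * a * Real.log 2) := by rw [ha]; push_cast; ring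
      rw [e4]
      linarith
    have hfin : W ^ d * ((M : ℝ) ^ kap0 g * Real.exp (a * (Real.log 2) ^ 2 / 48 * (Real.log M ^
        ((2 : ℝ) / (((g + 1) / 2 + 5 : ℕ) : ℝ)) / Real.log (Real.log M)))) ≤ W ^ d * Δ := by
      calc _ = (M : ℝ) ^ kap0 g * (Real.exp (a * (Real.log 2) ^ 2 / 48 * (Real.log M ^
            ((2 : ℝ) / (((g + 1) / 2 + 5 : ℕ) : ℝ)) / Real.log (Real.log M))) * W ^ d) := by ring
        _ ≤ (M : ℝ) ^ kap0 g * (2 : ℝ) ^ (s * (4 * g + 2) * d) :=
            mul_le_mul_of_nonneg_left hexp (by positivity)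
        _ ≤ _ := h3'
    exact le_of_mul_le_mul_left hfin (pow_pos hW0 d)

end Pool.Agent.U168.HY
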