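import Pool.Agent.U168.HY.Form
import Pool.Agent.Y678.SZ.Main

namespace Pool.Agent.U168.HY

open Polynomial Pool.Agent.W318 Pool.Agent.Y678.SZ Finset NumberField IsDedekindDomain WithZero

/-- The integral form. -/
noncomputable def fz (n Y Z w : ℕ) : ℤ[X] :=
  C ((w : ℤ) * (Y * ((w : ℤ) ^ (n / 2)) ^ 2)) * X ^ (n + n) +
    C ((w : ℤ) * ((2 * Y + 4 * ((Z : ℤ) - Y)) * (w : ℤ) ^ (n / 2))) * X ^ n + C ((w : ℤ) * Y)

theorem map_fz (K : Type) [Field K] (n Y Z w : ℕ) :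
    (fz n Y Z w).map (Int.castRingHom K) = frm n (Y : K) ((Z : K) - Y) w := by
  have e : ∀ z : ℤ, (C z : ℤ[X]).map (Int.castRingHom K) = C (z : K) := fun z => by
    rw [Polynomial.map_C]; rfl
  unfold fz frm tri
  rw [Polynomial.map_add, Polynomial.map_add, Polynomial.map_mul, Polynomial.map_mul,
    Polynomial.map_pow, Polynomial.map_pow, Polynomial.map_X, e, e, e]
  push_cast
  rfl

section

variable {K : Type} [Field K] [NumberField K]

theorem case_w {Y w : ℕ} (hsq : Squarefree w)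
    (hwK : ∀ p : ℕ, p.Prime → p ∣ w → (discr K).natAbs < p) (hwY : Nat.Coprime Y w)
    (v : HeightOneSpectrum (𝓞 K)) :
    v.valuation K (w : K) = 1 ∨ (v.valuation K (w : K) = exp (-1) ∧
      v.valuation K (Y : K) = 1) := by
  rcases val_squarefree hsq hwK v with h | h
  · exact Or.inl h
  · refine Or.inr ⟨h, (val_one_or hwY v).resolve_right ?_⟩
    rw [h, ← exp_zero]
    intro h1
    rw [exp_inj] at h1
    norm_num at h1

theorem disc_lowerz {g : ℕ} (hg : 2 ≤ g) {Y Z w : ℕ} (hY : 0 < Y) (hZ : 0 < Z) (hYZ : Y ≠ Z)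
    (hw : 0 < w) (hcop : Nat.Coprime Y Z) (hsq : Squarefree w)
    (hwK : ∀ p : ℕ, p.Prime → p ∣ w → (discr K).natAbs < p) (hwY : Nat.Coprime Y w) :
    DDz g Y Z w ^ Module.finrank ℚ K ≤ C0 g ^ Module.finrank ℚ K *
      discNorm g (frm (g + 1) (Y : K) ((Z : K) - Y) w) := by
  have hC0 : C0 g ≠ 0 := by unfold C0; positivity
  exact disc_lower (isHyp_frmz hY hZ hYZ hw) (DDz_pos hY hZ hYZ hw).ne' hC0 fun v =>
    place_ineqz hg hY hZ hYZ hw hcop v (case_w hsq hwK hwY v)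

theorem bad_upperz {g : ℕ} {Y Z w P : ℕ} (hY : 0 < Y) (hZ : 0 < Z) (hYZ : Y ≠ Z)
    (hw : 0 < w) (hP : 0 < P)
    (hbad : ∀ p : ℕ, p.Prime → p ∣ 2 * (g + 1) * (Y * (tt Y Z * Z)) → p ∣ P * w) :
    badNorm g (frm (g + 1) (Y : K) ((Z : K) - Y) w) ≤ (P * w) ^ Module.finrank ℚ K := by
  refine bad_upper (isHyp_frmz hY hZ hYZ hw) (by positivity) fun v hv => ?_
  have h3 := bad_placez hY hZ hYZ hw v hv
  have hDD := DDz_pos (g := g) hY hZ hYZ hw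
  obtain ⟨p, hp, hpd, hpv⟩ := exists_prime_of_val v (by positivity) h3
  refine val_lt_of_dvd v hpv ?_
  unfold DDz at hpd
  have key : ∀ q : ℕ, q ∣ 2 * (g + 1) * (Y * (tt Y Z * Z)) → p ∣ q → p ∣ P * w :=
    fun q hq hpq => hbad p hp (hpq.trans hq)
  rcases (Nat.Prime.dvd_mul hp).mp hpd with h | h
  · exact key 2 ⟨(g + 1) * (Y * (tt Y Z * Z)), by ring⟩ h
  rcases (Nat.Prime.dvd_mul hp).mp h with h | h
  · rcases (Nat.Prime.dvd_mul hp).mp h with h | h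
    · rcases (Nat.Prime.dvd_mul hp).mp h with h | h
      · exact key (g + 1) ⟨2 * (Y * (tt Y Z * Z)), by ring⟩ (hp.dvd_of_dvd_pow h)
      · exact (hp.dvd_of_dvd_pow h).mul_left _
    · exact key Y ⟨2 * (g + 1) * (tt Y Z * Z), by ring⟩ (hp.dvd_of_dvd_pow h)
  · rcases (Nat.Prime.dvd_mul hp).mp (hp.dvd_of_dvd_pow h) with h | h
    · have : p ∣ 2 := hp.dvd_of_dvd_pow (show p ∣ 2 ^ 4 from h)
      exact key 2 ⟨(g + 1) * (Y * (tt Y Z * Z)), by ring⟩ this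
    · exact key (tt Y Z * Z) ⟨2 * (g + 1) * Y, by ring⟩ h

theorem exists_place {p : ℕ} (hp : p.Prime) :
    ∃ v : HeightOneSpectrum (𝓞 K), v.valuation K (p : K) < 1 := by
  by_contra hcon
  push Not at hcon
  obtain ⟨S, hS⟩ := prod_cnt (K := K) hp.ne_zero
  have h1 := hS S subset_rfl
  have h2 : ∀ v : HeightOneSpectrum (𝓞 K), cnt v p = 0 := by
    intro v
    have h3 := hcon v
    rw [val_cnt v hp.ne_zero, ← exp_zero, exp_le_exp] at h3
    omega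
  rw [Finset.prod_eq_one (fun v _ => by rw [h2 v, pow_zero])] at h1
  have h4 : 1 < p ^ Module.finrank ℚ K :=
    Nat.one_lt_pow Module.finrank_pos.ne' hp.one_lt
  omega

theorem le_absNorm {p : ℕ} (hp : p.Prime) {v : HeightOneSpectrum (𝓞 K)}
    (hv : v.valuation K (p : K) < 1) : p ≤ Ideal.absNorm v.asIdeal := by
  refine Nat.le_of_dvd (one_le_absNorm v) ?_
  by_contra hcon
  have hcop : Nat.Coprime p (Ideal.absNorm v.asIdeal) := (Nat.Prime.coprime_iff_not_dvd hp).mpr hcon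
  have h1 := (val_one_or (K := K) hcop v).resolve_left hv.ne
  have h2 : ((Ideal.absNorm v.asIdeal : ℕ) : 𝓞 K) ∈ v.asIdeal := Ideal.absNorm_mem _
  have h3 : v.valuation K ((Ideal.absNorm v.asIdeal : ℕ) : K) < 1 := by
    have e1 : algebraMap (𝓞 K) K ((Ideal.absNorm v.asIdeal : ℕ) : 𝓞 K) =
      ((Ideal.absNorm v.asIdeal : ℕ) : K) := map_natCast _ _
    rw [← e1]
    exact (v.valuation_lt_one_iff_mem _).mpr h2
  rw [h1] at h3
  exact lt_irrefl _ h3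

theorem bad_lowerz {g : ℕ} (hg : 2 ≤ g) {Y Z w p : ℕ} (hY : 0 < Y) (hZ : 0 < Z) (hYZ : Y ≠ Z)
    (hw : 0 < w) (hcop : Nat.Coprime Y Z) (hsq : Squarefree w)
    (hwK : ∀ p : ℕ, p.Prime → p ∣ w → (discr K).natAbs < p) (hwY : Nat.Coprime Y w)
    (hp : p.Prime) (hpg : g + 1 < p) (hpd : p ∣ Y * Z) :
    p ≤ badNorm g (frm (g + 1) (Y : K) ((Z : K) - Y) w) := by
  classical
  obtain ⟨v, hv⟩ := exists_place (K := K) hp
  have h1 := place_ineqz hg hY hZ hYZ hw hcop v (case_w hsq hwK hwY v)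
  have hpC : Nat.Coprime p (C0 g) := by
    rw [Nat.Prime.coprime_iff_not_dvd hp]
    intro h
    have h2 : p ∣ 2 ∨ p ∣ g + 1 := by
      unfold C0 at h
      rcases (Nat.Prime.dvd_mul hp).mp h with h | h
      · exact Or.inl (hp.dvd_of_dvd_pow h)
      · rcases (Nat.Prime.dvd_mul hp).mp (hp.dvd_of_dvd_pow h) with h | h
        · exact Or.inl (hp.dvd_of_dvd_pow (show p ∣ 2 ^ 2 from h))
        · exact Or.inr (hp.dvd_of_dvd_pow h)
    rcases h2 with h | h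
    · have := Nat.le_of_dvd (by norm_num) h; omega
    · have := Nat.le_of_dvd (by omega) h; omega
  have hC1 := (val_one_or (K := K) hpC v).resolve_left hv.ne
  have hpDD : p ∣ DDz g Y Z w := by
    unfold DDz
    rcases (Nat.Prime.dvd_mul hp).mp hpd with h | h
    · exact ((h.pow (by omega)).mul_left _).mul_right _
    · exact (((h.mul_left _).mul_left _).pow (by omega)).mul_left _
  have hDD := val_lt_of_dvd v hv hpDD
  have hne : minExp g (frm (g + 1) (Y : K) ((Z : K) - Y) w) v ≠ 0 := by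
    intro h0
    rw [h0, hC1] at h1
    simp only [Nat.cast_zero, neg_zero, exp_zero, mul_one] at h1
    exact absurd hDD (not_lt.mpr h1)
  have hF := isHyp_frmz (K := K) (g := g) hY hZ hYZ hw
  have hB := finite_bad hF
  rw [badNorm_eq hB.toFinset (fun v => by simp)]
  refine (le_absNorm hp hv).trans ?_
  exact Finset.single_le_prod' (f := fun v : HeightOneSpectrum (𝓞 K) => Ideal.absNorm v.asIdeal)
    (fun v _ => one_le_absNorm v) (by simpa using hne)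

end

/-- `w ^ κ |T| ^ (4 g + 2) ≤ DD` -/
theorem le_DDz {g Y Z w : ℕ} (h1 : tt Y Z ≤ Y) (h2 : tt Y Z ≤ Z) :
    w ^ kap g * tt Y Z ^ (4 * g + 2) ≤ DDz g Y Z w := by
  have e3 : 1 ≤ (g + 1) ^ (g + 1 + (g + 1)) := Nat.one_le_pow _ _ (by omega)
  have e1 : tt Y Z ^ (2 * g) ≤ Y ^ (2 * g) := Nat.pow_le_pow_left h1 _
  have e2 : tt Y Z ^ (2 * g + 2) ≤ (16 * (tt Y Z * Z)) ^ (g + 1) := by
    have : tt Y Z ^ (2 * g + 2) = (tt Y Z * tt Y Z) ^ (g + 1) := by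
      rw [← sq, ← pow_mul]
      congr 1
    rw [this]
    apply Nat.pow_le_pow_left
    calc tt Y Z * tt Y Z ≤ tt Y Z * Z := Nat.mul_le_mul_left _ h2
      _ ≤ 16 * (tt Y Z * Z) := Nat.le_mul_of_pos_left _ (by norm_num)
  calc w ^ kap g * tt Y Z ^ (4 * g + 2) = 1 * w ^ kap g * tt Y Z ^ (2 * g) *
        tt Y Z ^ (2 * g + 2) := by ring
    _ ≤ (g + 1) ^ (g + 1 + (g + 1)) * w ^ kap g * Y ^ (2 * g) *
        (16 * (tt Y Z * Z)) ^ (g + 1) := by gcongr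
    _ = _ := rfl

/-- The inequality between the numbers. -/
theorem combine {κ a d M Δ C0 DD prim prim' rY rZ w k t Q : ℕ}
    (h1 : DD ^ d ≤ C0 ^ d * Δ) (h2 : M ≤ (prim * rY * w) ^ d) (hprim : prim ≤ prim')
    (h3 : w ^ κ * t ^ a ≤ DD) (h4 : w * 2 ^ k ≤ t * rZ) (h5 : rY ^ 2 ≤ Q) (h6 : rY * rZ ≤ Q) :
    M ^ (2 * (κ + a)) * 2 ^ (2 * k * a * d) ≤
      (prim' ^ (2 * (κ + a)) * C0 ^ 2 * Q ^ (κ + 2 * a)) ^ d * Δ ^ 2 := by
  have e1 : w ^ (2 * (κ + a)) * 2 ^ (2 * k * a) = (w ^ κ * (w * 2 ^ k) ^ a) ^ 2 := by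
    rw [mul_pow w]
    ring
  have e2 : (w ^ κ * (w * 2 ^ k) ^ a) ^ 2 ≤ (DD * rZ ^ a) ^ 2 := by
    apply Nat.pow_le_pow_left
    calc w ^ κ * (w * 2 ^ k) ^ a ≤ w ^ κ * (t * rZ) ^ a := by gcongr
      _ = (w ^ κ * t ^ a) * rZ ^ a := by rw [mul_pow]; ring
      _ ≤ DD * rZ ^ a := by gcongr
  have e3 : rY ^ (2 * (κ + a)) * rZ ^ (2 * a) ≤ Q ^ (κ + 2 * a) := by
    calc rY ^ (2 * (κ + a)) * rZ ^ (2 * a) = (rY ^ 2) ^ κ * (rY * rZ) ^ (2 * a) := by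
          rw [mul_pow, ← pow_mul, mul_add, pow_add]; ring
      _ ≤ Q ^ κ * Q ^ (2 * a) := by gcongr
      _ = _ := by rw [← pow_add]
  calc M ^ (2 * (κ + a)) * 2 ^ (2 * k * a * d)
      ≤ ((prim * rY * w) ^ d) ^ (2 * (κ + a)) * 2 ^ (2 * k * a * d) := by gcongr
    _ = (prim ^ (2 * (κ + a)) * rY ^ (2 * (κ + a)) *
        (w ^ (2 * (κ + a)) * 2 ^ (2 * k * a))) ^ d := by
        ring
    _ ≤ (prim' ^ (2 * (κ + a)) * rY ^ (2 * (κ + a)) * (DD * rZ ^ a) ^ 2) ^ d := by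
        rw [e1]
        gcongr
    _ = (prim' ^ (2 * (κ + a)) * (rY ^ (2 * (κ + a)) * rZ ^ (2 * a))) ^ d * (DD ^ d) ^ 2 := by
        ring
    _ ≤ (prim' ^ (2 * (κ + a)) * Q ^ (κ + 2 * a)) ^ d * (C0 ^ d * Δ) ^ 2 := by gcongr
    _ = _ := by
        ring

end Pool.Agent.U168.HY
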