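import Pool.Agent.Y678.SZ.Glob
import Pool.Agent.U168.HY.Arith

/-!
The family of `Pool.Agent.Y678.SZ` with an arbitrary sign of `T = Z - Y`.
-/

namespace Pool.Agent.U168.HY

open Polynomial Pool.Agent.W318 Pool.Agent.Y678.SZ Finset NumberField IsDedekindDomain WithZero

/-- The discriminant of the form `frm (g + 1) Y (Z - Y) w`, up to sign. -/
def DDz (g Y Z w : ℕ) : ℕ :=
  (g + 1) ^ (g + 1 + (g + 1)) * w ^ kap g * Y ^ (2 * g) * (16 * (tt Y Z * Z)) ^ (g + 1)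

theorem DDz_pos {g Y Z w : ℕ} (hY : 0 < Y) (hZ : 0 < Z) (hYZ : Y ≠ Z) (hw : 0 < w) :
    0 < DDz g Y Z w := by
  have := tt_pos hYZ
  unfold DDz
  positivity

section

variable {K : Type} [Field K] [NumberField K]

theorem val_int_le_one (v : HeightOneSpectrum (𝓞 K)) (m : ℤ) : v.valuation K (m : K) ≤ 1 := by
  have e : algebraMap (𝓞 K) K (m : 𝓞 K) = (m : K) := map_intCast _ m
  rw [← e]
  exact v.valuation_le_one _

omit [NumberField K] in
theorem cast_tt (Y Z : ℕ) : ((Z : K) - Y = ((tt Y Z : ℕ) : K)) ∨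
    ((Z : K) - Y = -((tt Y Z : ℕ) : K)) := by
  rcases le_total Y Z with h | h
  · left
    have : tt Y Z = Z - Y := by unfold tt; omega
    rw [this, Nat.cast_sub h]
  · right
    have : tt Y Z = Y - Z := by unfold tt; omega
    rw [this, Nat.cast_sub h]
    ring

theorem val_tt (v : HeightOneSpectrum (𝓞 K)) (Y Z : ℕ) :
    v.valuation K ((Z : K) - Y) = v.valuation K ((tt Y Z : ℕ) : K) := by
  rcases cast_tt (K := K) Y Z with h | h
  · rw [h]
  · rw [h, Valuation.map_neg]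

theorem sub_cast_ne {Y Z : ℕ} (hYZ : Y ≠ Z) : (Z : K) - Y ≠ 0 := by
  rw [sub_ne_zero]
  exact_mod_cast hYZ.symm

theorem val_sub_one_or {Y Z : ℕ} (hcop : Nat.Coprime Y Z) (v : HeightOneSpectrum (𝓞 K)) :
    v.valuation K (Y : K) = 1 ∨ v.valuation K ((Z : K) - Y) = 1 := by
  by_cases h : v.valuation K (Y : K) = 1
  · exact Or.inl h
  · right
    have hlt := lt_of_le_of_ne (val_nat_le_one v Y) h
    have hZ := (val_one_or hcop v).resolve_left h
    rw [Valuation.map_sub_eq_of_lt_left _ (by rw [hZ]; exact hlt), hZ]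

theorem isHyp_frmz {g : ℕ} {Y Z w : ℕ} (hY : 0 < Y) (hZ : 0 < Z) (hYZ : Y ≠ Z) (hw : 0 < w) :
    IsHyp g (frm (g + 1) (Y : K) ((Z : K) - Y) w) := by
  have hY' : (Y : K) ≠ 0 := Nat.cast_ne_zero.mpr hY.ne'
  have hZ' : (Z : K) ≠ 0 := Nat.cast_ne_zero.mpr hZ.ne'
  have hT' : (Z : K) - Y ≠ 0 := sub_cast_ne hYZ
  have hw' : (w : K) ≠ 0 := Nat.cast_ne_zero.mpr hw.ne'
  have ha : (w : K) * (Y * ((w : K) ^ ((g + 1) / 2)) ^ 2) ≠ 0 :=
    mul_ne_zero hw' (mul_ne_zero hY' (pow_ne_zero _ (pow_ne_zero _ hw')))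
  refine ⟨squarefree_tri (by omega) ha (mul_ne_zero hw' hY') ?_, Or.inr ?_⟩
  · have : ((w : K) * ((2 * Y + 4 * ((Z : K) - Y)) * (w : K) ^ ((g + 1) / 2))) ^ 2 -
        4 * ((w : K) * (Y * ((w : K) ^ ((g + 1) / 2)) ^ 2) * (w * Y)) =
        (w * (w : K) ^ ((g + 1) / 2)) ^ 2 * (16 * (((Z : K) - Y) * Z)) := by ring
    rw [this]
    exact mul_ne_zero (pow_ne_zero _ (mul_ne_zero hw' (pow_ne_zero _ hw')))
      (mul_ne_zero (by norm_num) (mul_ne_zero hT' hZ'))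
  · rw [frm, natDegree_tri (by omega) ha]
    omega

theorem val_discN_frmz {g : ℕ} {Y Z w : ℕ} (hY : 0 < Y) (hw : 0 < w)
    (v : HeightOneSpectrum (𝓞 K)) :
    v.valuation K (discN (g + 1 + (g + 1)) (frm (g + 1) (Y : K) ((Z : K) - Y) w)) =
      v.valuation K (DDz g Y Z w : K) := by
  have hY' : (Y : K) ≠ 0 := Nat.cast_ne_zero.mpr hY.ne'
  have hw' : (w : K) ≠ 0 := Nat.cast_ne_zero.mpr hw.ne'
  have ha : (w : K) * (Y * ((w : K) ^ ((g + 1) / 2)) ^ 2) ≠ 0 :=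
    mul_ne_zero hw' (mul_ne_zero hY' (pow_ne_zero _ (pow_ne_zero _ hw')))
  obtain ⟨s, hs⟩ := discr_tri (n := g + 1) (by omega)
    (b := (w : K) * ((2 * Y + 4 * ((Z : K) - Y)) * (w : K) ^ ((g + 1) / 2)))
    (c := (w : K) * Y) ha
  rw [discN, frm, if_pos (natDegree_tri (by omega) ha), hs, map_mul, map_pow, Valuation.map_neg,
    map_one, one_pow, one_mul]
  have e1 : ((w : K) * ((2 * Y + 4 * ((Z : K) - Y)) * (w : K) ^ ((g + 1) / 2))) ^ 2 -
        4 * ((w : K) * (Y * ((w : K) ^ ((g + 1) / 2)) ^ 2) * (w * Y)) =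
        (w * (w : K) ^ ((g + 1) / 2)) ^ 2 * (16 * (((Z : K) - Y) * Z)) := by ring
  have e2 : (w : K) * (Y * ((w : K) ^ ((g + 1) / 2)) ^ 2) * (w * Y) =
      (w * (w : K) ^ ((g + 1) / 2)) ^ 2 * Y ^ 2 := by ring
  rw [e1, e2, mul_pow (((w : K) * (w : K) ^ ((g + 1) / 2)) ^ 2),
    mul_pow (((w : K) * (w : K) ^ ((g + 1) / 2)) ^ 2), Nat.add_sub_cancel]
  have e3 : (((w : K) * (w : K) ^ ((g + 1) / 2)) ^ 2) ^ g *
      (((w : K) * (w : K) ^ ((g + 1) / 2)) ^ 2) ^ (g + 1) = (w : K) ^ kap g := by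
    rw [← pow_add, ← pow_succ', ← pow_mul, ← pow_mul, kap]
    congr 1
    ring
  have e4 : ((g + 1 : ℕ) : K) ^ (g + 1 + (g + 1)) *
      ((((w : K) * (w : K) ^ ((g + 1) / 2)) ^ 2) ^ g * ((Y : K) ^ 2) ^ g) *
      ((((w : K) * (w : K) ^ ((g + 1) / 2)) ^ 2) ^ (g + 1) *
        (16 * (((Z : K) - Y) * Z)) ^ (g + 1)) =
      (((g + 1 : ℕ) : K) ^ (g + 1 + (g + 1)) * (w : K) ^ kap g * (Y : K) ^ (2 * g)) *
        (16 * (((Z : K) - Y) * Z)) ^ (g + 1) := by
    rw [← e3, pow_mul]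
    ring
  rw [e4]
  unfold DDz
  push_cast
  rw [map_mul, map_mul, map_pow _ (16 * (((Z : K) - Y) * Z)), map_mul _ (16 : K),
    map_mul _ ((Z : K) - Y), val_tt v Y Z, ← map_mul _ ((tt Y Z : ℕ) : K),
    ← map_mul _ (16 : K), ← map_pow _ (16 * (((tt Y Z : ℕ) : K) * Z)), ← map_mul, ← map_mul]

theorem place_ineqz {g : ℕ} (hg : 2 ≤ g) {Y Z w : ℕ} (hY : 0 < Y) (hZ : 0 < Z) (hYZ : Y ≠ Z)
    (hw : 0 < w) (hcop : Nat.Coprime Y Z) (v : HeightOneSpectrum (𝓞 K))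
    (hcase : v.valuation K (w : K) = 1 ∨ (v.valuation K (w : K) = exp (-1) ∧
      v.valuation K (Y : K) = 1)) :
    exp (-((minExp g (frm (g + 1) (Y : K) ((Z : K) - Y) w) v : ℕ) : ℤ)) *
      v.valuation K (C0 g : K) ≤ v.valuation K (DDz g Y Z w : K) := by
  have hY' : (Y : K) ≠ 0 := Nat.cast_ne_zero.mpr hY.ne'
  have hZ' : (Z : K) ≠ 0 := Nat.cast_ne_zero.mpr hZ.ne'
  have hw' : (w : K) ≠ 0 := Nat.cast_ne_zero.mpr hw.ne'
  have hF := isHyp_frmz (K := K) (g := g) hY hZ hYZ hw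
  have hT0 : (Z : K) - Y ≠ 0 := sub_cast_ne hYZ
  have hone0 := val_sub_one_or (K := K) hcop v
  have hTle : v.valuation K ((Z : K) - Y) ≤ 1 := by
    rw [val_tt]
    exact val_nat_le_one v _
  have hYT : (Y : K) + ((Z : K) - Y) ≠ 0 := by
    rw [add_sub_cancel]
    exact hZ'
  rw [← val_discN_frmz hY hw v]
  set T : K := (Z : K) - Y with hT
  obtain ⟨f, f₂, hM, hn⟩ := exists_min_model hF v
  obtain ⟨φ⟩ := hM.iso
  have hbr := bridge hg hF.1 hF.2 hM.upper φ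
  have hint := int_comb v hM.int hM.int₂
  have hgood' : GoodForm (g + 1) (4 * f + f₂ ^ 2) := hbr.good (by omega) hF.good
  have h4 : (1 / 4 : K) ≠ 0 := by norm_num
  rw [modelDisc_eq, four_mul_form, discN_C_mul (by omega) h4 hgood'.2] at hn
  rw [← hn, ← map_mul]
  have e1 : (2 : K) ^ (4 * g) * ((1 / 4) ^ (2 * (g + 1 + (g + 1) - 1)) *
      discN (g + 1 + (g + 1)) (4 * f + f₂ ^ 2)) * (C0 g : K) =
      discN (g + 1 + (g + 1)) (4 * f + f₂ ^ 2) *
        (4 * ((g + 1 : ℕ) : K) ^ (g + 1)) ^ (2 * (g + 1 + (g + 1) - 1)) := by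
    have e2 : (2 : K) ^ (4 * g) * 2 ^ (4 * g + 4) = 4 ^ (2 * (g + 1 + (g + 1) - 1)) := by
      rw [← pow_add, show (4 : K) = 2 ^ 2 by norm_num, ← pow_mul]
      congr 1
      omega
    have e3 : (1 / 4 : K) ^ (2 * (g + 1 + (g + 1) - 1)) * 4 ^ (2 * (g + 1 + (g + 1) - 1)) = 1 := by
      rw [← mul_pow]; norm_num
    unfold C0
    push_cast
    calc _ = ((1 / 4 : K) ^ (2 * (g + 1 + (g + 1) - 1)) * (2 ^ (4 * g) * 2 ^ (4 * g + 4))) *
          (discN (g + 1 + (g + 1)) (4 * f + f₂ ^ 2) *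
          (4 * ((g + 1 : K)) ^ (g + 1)) ^ (2 * (g + 1 + (g + 1) - 1))) := by ring
      _ = _ := by rw [e2, e3, one_mul]
  rw [e1]
  obtain ⟨a, b, c, d, l, hdet, hl, hF'⟩ := hbr
  rw [hF'] at hint ⊢
  rcases hcase with hw1 | ⟨hw1, hY1⟩
  · -- the untwisted places
    obtain ⟨M, _, _, _, W, E, ζ, s, θ, hc, hζ, hs, hθ⟩ := exists_data (K := K) (n := g + 1)
      (by omega) (S := (w : K) ^ ((g + 1) / 2)) (Y := (Y : K)) (T := T)
      (pow_ne_zero _ hw') hY' v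
    set φ := algebraMap K M with hφ
    have hone : ∀ x : K, v.valuation K x = 1 → absW W (φ x) = 1 := by
      intro x hx
      have := hc.2 x 0 (by rw [hx, exp_zero])
      simpa using this
    have hdet' : φ a * φ d - φ b * φ c ≠ 0 := by
      rw [← map_mul, ← map_mul, ← map_sub, Ne, map_eq_zero]
      exact hdet
    have hl' : φ l ≠ 0 := by rwa [Ne, map_eq_zero]
    have hS1 : absW W (φ ((w : K) ^ ((g + 1) / 2))) = 1 := by
      apply hone
      rw [map_pow, hw1, one_pow]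
    have hs1 : absW W s = 1 := by
      have h1 : absW W s ^ (g + 1) = 1 := by rw [← map_pow, hs, hS1]
      exact (pow_eq_one_iff_of_nonneg ((absW W).nonneg _) (by omega)).mp h1
    have hmap : (frm (g + 1) (Y : K) T w).map φ = tri (g + 1)
        (φ w * (φ Y * (φ ((w : K) ^ ((g + 1) / 2))) ^ 2))
        (φ w * ((2 * φ Y + 4 * φ T) * φ ((w : K) ^ ((g + 1) / 2)))) (φ w * φ Y) := by
      rw [frm, map_tri]
      simp only [map_mul, map_pow, map_add, map_ofNat]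
    have hmain := local1 (A := absW W) (absW_na W) (by omega : 2 ≤ g + 1) hζ
      (Y := φ Y) (T := φ T) (θ := θ) (w := φ w) (s := s)
      (by rwa [Ne, map_eq_zero]) (by rwa [Ne, map_eq_zero])
      (by rw [← map_add, Ne, map_eq_zero]; exact hYT) hθ
      (hone0.imp (hone _) (hone _)) hs hs1 (hone _ hw1) hdet' hl'
    rw [← hmap] at hmain
    have hmap2 : C (φ l ^ 2) * act (g + 1 + (g + 1)) (φ a) (φ b) (φ c) (φ d)
        ((frm (g + 1) (Y : K) T w).map φ) =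
        (C (l ^ 2) * act (g + 1 + (g + 1)) a b c d (frm (g + 1) (Y : K) T w)).map φ := by
      rw [Polynomial.map_mul, Polynomial.map_C, map_pow φ, act_map]
    rw [hmap2] at hmain
    have h5 := hmain ((hc.int_iff _).mpr hint)
    rw [discN_map, discN_map] at h5
    rw [← hc.le_iff]
    refine le_trans (le_of_eq ?_) h5
    rw [← hφ, map_mul φ, map_mul (absW W), map_pow φ, map_pow (absW W)]
    simp only [map_mul φ, map_pow φ, map_natCast, map_ofNat]
  · -- the twisted places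
    have h6 := disc_act_val (by omega : 2 ≤ g + 1) hF.good v hdet hl
    have h7 : v.valuation K (l ^ 2 * (a * d - b * c) ^ (g + 1)) ≤ 1 := by
      refine twisted (n := g + 1) (σ := (g + 1) / 2) (by omega) (by omega) hY1
        hTle (S := (w : K) ^ ((g + 1) / 2)) ?_ hw1 hdet hl hint
      rw [map_pow, hw1, ← exp_nsmul]
      congr 1
      simp
    have h8 : v.valuation K ((4 * ((g + 1 : ℕ) : K) ^ (g + 1)) ^ (2 * (g + 1 + (g + 1) - 1))) ≤
        1 := by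
      rw [map_pow]
      apply pow_le_one'
      have : (4 * ((g + 1 : ℕ) : K) ^ (g + 1)) = ((4 * (g + 1) ^ (g + 1) : ℕ) : K) := by
        push_cast; ring
      rw [this]
      exact val_nat_le_one v _
    rw [map_mul, h6, map_mul, map_pow]
    calc _ ≤ (1 * v.valuation K (discN (g + 1 + (g + 1)) (frm (g + 1) (Y : K) T w))) * 1 := by
          refine mul_le_mul' (mul_le_mul_left (pow_le_one' h7 _) _) h8
      _ = _ := by rw [one_mul, mul_one]

/-- The integral form itself is a model. -/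
theorem bad_placez {g : ℕ} {Y Z w : ℕ} (hY : 0 < Y) (hZ : 0 < Z) (hYZ : Y ≠ Z) (hw : 0 < w)
    (v : HeightOneSpectrum (𝓞 K))
    (hv : minExp g (frm (g + 1) (Y : K) ((Z : K) - Y) w) v ≠ 0) :
    v.valuation K ((2 * DDz g Y Z w : ℕ) : K) < 1 := by
  have hF := isHyp_frmz (K := K) (g := g) hY hZ hYZ hw
  by_contra hcon
  have h1 : v.valuation K ((2 * DDz g Y Z w : ℕ) : K) = 1 :=
    le_antisymm (val_nat_le_one v _) (not_lt.mp hcon)
  rw [Nat.cast_mul, map_mul] at h1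
  have h2 : v.valuation K ((2 : ℕ) : K) = 1 := by
    refine le_antisymm (val_nat_le_one v _) ?_
    rw [← h1]
    exact mul_le_of_le_one_right' (val_nat_le_one v _)
  have h3 : v.valuation K ((DDz g Y Z w : ℕ) : K) = 1 := by rwa [h2, one_mul] at h1
  have hd : (frm (g + 1) (Y : K) ((Z : K) - Y) w).natDegree ≤ g + 1 + (g + 1) := by
    have := hF.2; omega
  have hint : ∀ i, v.valuation K ((frm (g + 1) (Y : K) ((Z : K) - Y) w).coeff i) ≤ 1 := by
    intro i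
    have : ∃ z : ℤ, (frm (g + 1) (Y : K) ((Z : K) - Y) w).coeff i = (z : K) := by
      rw [frm, tri]
      simp only [coeff_add, coeff_C_mul, coeff_X_pow, coeff_C]
      refine ⟨w * (Y * (w ^ ((g + 1) / 2)) ^ 2) * (if i = g + 1 + (g + 1) then 1 else 0) +
        w * ((2 * Y + 4 * ((Z : ℤ) - Y)) * w ^ ((g + 1) / 2)) * (if i = g + 1 then 1 else 0) +
        (if i = 0 then w * Y else 0), ?_⟩
      push_cast
      rfl
    obtain ⟨z, hz⟩ := this
    rw [hz]
    exact val_int_le_one v z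
  obtain ⟨k, hk, _, hle⟩ := minExp_le hF v (Eqv.refl hd) hint (t := 0)
    (by
      have : ((2 : ℕ) : K) = 2 := by norm_num
      rw [this] at h2
      rw [h2]; simp)
  rw [val_discN_frmz hY hw, h3, ← exp_zero, exp_inj] at hk
  apply hv
  have : k = 0 := by omega
  rw [this] at hle
  simpa using hle

end

end Pool.Agent.U168.HY
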