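import Pool.Agent.U168.HY.Compare

namespace Pool.Agent.U168.HY

open Polynomial Pool.Agent.W318 Pool.Agent.Y678.SZ Finset NumberField IsDedekindDomain WithZero

/-- The curves for the parameter `u`. -/
theorem key {g : ℕ} (hg : 2 ≤ g) {u : ℕ} (hu : g + 1 ≤ u) (hs : 3 ≤ (PP u (u ^ 2)).card) :
    ∃ F : ℤ[X], ∀ (K : Type) [Field K] [NumberField K],
      IsHyp g (F.map (Int.castRingHom K)) ∧
      ((discr K).natAbs ≤ u →
        u ≤ badNorm g (F.map (Int.castRingHom K)) ∧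
        badNorm g (F.map (Int.castRingHom K)) ≤
          (4 ^ (8 * u ^ ((g + 1) / 2 + 5))) ^ Module.finrank ℚ K ∧
        badNorm g (F.map (Int.castRingHom K)) ^ kap0 g *
            2 ^ ((PP u (u ^ 2)).card * (4 * g + 2) * Module.finrank ℚ K) ≤
          ((4 ^ u) ^ kap0 g * C0 g * (8 * u ^ ((g + 1) / 2 + 5)) ^ (4 * g + 2)) ^
            Module.finrank ℚ K * discNorm g (F.map (Int.castRingHom K))) := by
  set q := (g + 1) / 2 with hq
  set s := (PP u (u ^ 2)).card with hsdef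
  set b := 2 * u ^ (q + 3) with hb
  have hu0 : 0 < u := by omega
  have hb1 : 2 ≤ b := by
    have : 0 < u ^ (q + 3) := by positivity
    omega
  obtain ⟨B, hB⟩ : ∃ B, b = B + 1 := ⟨b - 1, by omega⟩
  have hmb : u ^ 2 ≤ b := by
    calc u ^ 2 ≤ u ^ (q + 3) := Nat.pow_le_pow_right hu0 (by omega)
      _ ≤ b := by omega
  set L := 2 * (u ^ 2 * B) + 1 with hL
  have hL0 : 0 < L := by omega
  have hu5 : u ^ 2 * u ^ (q + 3) = u ^ (q + 5) := by rw [← pow_add]; congr 1; omega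
  have hLle : 2 * L ≤ 8 * u ^ (q + 5) := by
    have h1 : u ^ 2 * B + u ^ 2 = 2 * u ^ (q + 5) := by
      calc u ^ 2 * B + u ^ 2 = u ^ 2 * (B + 1) := by ring
        _ = u ^ 2 * (2 * u ^ (q + 3)) := by rw [← hB]
        _ = 2 * (u ^ 2 * u ^ (q + 3)) := by ring
        _ = _ := by rw [hu5]
    have h2 : 1 ≤ u ^ 2 := Nat.one_le_pow _ _ hu0
    omega
  set X := (B + 1) ^ s with hX
  have hLX : L + 1 ≤ X := by
    have h1 : (B + 1) ^ 3 ≤ X := Nat.pow_le_pow_right (by omega) hs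
    have h2 : L + 1 ≤ (B + 1) ^ 3 := by
      have h3 : u ^ 2 * B ≤ (B + 1) * B := Nat.mul_le_mul_right _ (by omega)
      have h4 : 1 ≤ B := by omega
      nlinarith [Nat.zero_le (B * B * B)]
    exact h2.trans h1
  set k := Nat.log 2 ((X - 1) / L) with hk
  have hdiv : (X - 1) / L ≠ 0 := by
    rw [Nat.div_ne_zero_iff]
    omega
  have hk1 : 2 ^ k * L < X := by
    have h1 : 2 ^ k ≤ (X - 1) / L := Nat.pow_log_le_self 2 hdiv
    have h2 : 2 ^ k * L ≤ X - 1 := (Nat.le_div_iff_mul_le hL0).mp h1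
    omega
  have hk2 : X ≤ 2 ^ k * (2 * L) := by
    have h1 : (X - 1) / L < 2 ^ (k + 1) := Nat.lt_pow_succ_log_self (by norm_num) _
    have h2 : X - 1 < 2 ^ (k + 1) * L := (Nat.div_lt_iff_lt_mul hL0).mp h1
    have h3 : 2 ^ (k + 1) * L = 2 ^ k * (2 * L) := by rw [pow_succ]; ring
    omega
  obtain ⟨Y, Z, w, hY, hZ, hYZ, hw, hcop, hYw, hsq, hwj, hwbad, htY, htZ, hwk, hrY, hrYZ, hprj,
    hrY4, hw4, p, hp, hjp, hpd⟩ := exists_YZw (j := u) (m := u ^ 2) (B := B) (k := k)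
      (by omega) hk1
  refine ⟨fz (g + 1) Y Z w, fun K _ _ => ?_⟩
  rw [map_fz]
  refine ⟨isHyp_frmz hY hZ hYZ hw, fun hdisc => ?_⟩
  have hwK : ∀ p : ℕ, p.Prime → p ∣ w → (discr K).natAbs < p := fun p hp h =>
    lt_of_le_of_lt hdisc (hwj p hp h)
  set d := Module.finrank ℚ K with hd
  have hprim : ∀ r : ℕ, r.Prime → r ≤ u → r ∣ primorial u := by
    intro r hr hru
    exact Finset.dvd_prod_of_mem _ (by
      rw [mem_filter, mem_range]; exact ⟨by omega, hr⟩)
  have hprim0 : 0 < primorial u := primorial_pos u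
  have hup := bad_upperz (K := K) (g := g) (P := primorial u * radj u Y) hY hZ hYZ hw
    (Nat.mul_pos hprim0 (radj_pos _ _)) (by
      intro r hr hrd
      by_cases hru : r ≤ u
      · exact ((hprim r hr hru).mul_right _).mul_right _
      · push Not at hru
        rcases (Nat.Prime.dvd_mul hr).mp hrd with h | h
        · rcases (Nat.Prime.dvd_mul hr).mp h with h | h
          · have := Nat.le_of_dvd (by norm_num) h; omega
          · have := Nat.le_of_dvd (by omega) h; omega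
        · rcases (Nat.Prime.dvd_mul hr).mp h with h | h
          · exact (((dvd_radj hr hY.ne').mpr ⟨h, hru⟩).mul_left _).mul_right _
          · exact (hwbad r hr hru h).mul_left _)
  have hlow := disc_lowerz (K := K) hg hY hZ hYZ hw hcop hsq hwK hYw
  have hM1 := bad_lowerz (K := K) hg hY hZ hYZ hw hcop hsq hwK hYw hp (by omega) hpd
  rw [← hd] at hup hlow
  set M := badNorm g (frm (g + 1) (Y : K) ((Z : K) - Y) w) with hM
  set Δ := discNorm g (frm (g + 1) (Y : K) ((Z : K) - Y) w) with hΔ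
  refine ⟨by omega, ?_, ?_⟩
  · refine hup.trans (Nat.pow_le_pow_left ?_ _)
    calc primorial u * radj u Y * w ≤ 4 ^ u * 4 ^ (u ^ 2) * 4 ^ (u ^ 2 * B + u ^ 2) :=
          Nat.mul_le_mul (Nat.mul_le_mul (primorial_le_four_pow u) hrY4) hw4
      _ = 4 ^ (u + u ^ 2 + (u ^ 2 * B + u ^ 2)) := by rw [← pow_add, ← pow_add]
      _ ≤ _ := by
        apply Nat.pow_le_pow_right (by norm_num)
        have h1 : u ^ 2 * B + u ^ 2 = 2 * u ^ (q + 5) := by
          calc u ^ 2 * B + u ^ 2 = u ^ 2 * (B + 1) := by ring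
            _ = u ^ 2 * (2 * u ^ (q + 3)) := by rw [← hB]
            _ = 2 * (u ^ 2 * u ^ (q + 3)) := by ring
            _ = _ := by rw [hu5]
        have h2 : u ≤ u ^ (q + 5) := Nat.le_self_pow (by omega) u
        have h3 : u ^ 2 ≤ u ^ (q + 5) := Nat.pow_le_pow_right hu0 (by omega)
        omega
  · have hcomb := combine (κ := kap g) (a := 4 * g + 2) (prim' := 4 ^ u) hlow hup
      (primorial_le_four_pow u) (le_DDz htY htZ) hwk hrY hrYZ
    rw [← hsdef] at hcomb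
    -- the square root
    have hroot : M ^ kap0 g * 2 ^ (k * (4 * g + 2) * d) ≤
        ((4 ^ u) ^ kap0 g * C0 g * (u ^ s) ^ (kap g + 2 * (4 * g + 2))) ^ d * Δ := by
      have e1 : M ^ (2 * (kap g + (4 * g + 2))) * 2 ^ (2 * k * (4 * g + 2) * d) =
          (M ^ kap0 g * 2 ^ (k * (4 * g + 2) * d)) ^ 2 := by
        rw [kap0, mul_pow, ← pow_mul, ← pow_mul]
        congr 2 <;> ring
      have e2 : ((4 ^ u) ^ (2 * (kap g + (4 * g + 2))) * C0 g ^ 2 *
          ((u ^ 2) ^ s) ^ (kap g + 2 * (4 * g + 2))) ^ d * Δ ^ 2 =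
          (((4 ^ u) ^ kap0 g * C0 g * (u ^ s) ^ (kap g + 2 * (4 * g + 2))) ^ d * Δ) ^ 2 := by
        have e3 : (4 ^ u) ^ (2 * (kap g + (4 * g + 2))) * C0 g ^ 2 *
            ((u ^ 2) ^ s) ^ (kap g + 2 * (4 * g + 2)) =
            ((4 ^ u) ^ kap0 g * C0 g * (u ^ s) ^ (kap g + 2 * (4 * g + 2))) ^ 2 := by
          rw [kap0, mul_pow, mul_pow, ← pow_mul (4 ^ u), mul_comm 2 (kap g + (4 * g + 2)),
            ← pow_mul u, mul_comm 2 s, pow_mul u, ← pow_mul (u ^ s), ← pow_mul (u ^ s),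
            mul_comm 2 (kap g + 2 * (4 * g + 2))]
        rw [e3, mul_pow _ Δ]
        congr 1
        exact pow_right_comm _ 2 d
      rw [e1, e2] at hcomb
      exact (Nat.pow_le_pow_iff_left (by norm_num)).mp hcomb
    -- cancel
    have hkap : kap g + 2 * (4 * g + 2) = (4 * g + 2) * (q + 3) := by
      rw [kap, ← hq]; ring
    have hXe : X ^ ((4 * g + 2) * d) = 2 ^ (s * (4 * g + 2) * d) *
        ((u ^ s) ^ (kap g + 2 * (4 * g + 2))) ^ d := by
      rw [hX, ← hB, hb, hkap, mul_pow, mul_pow, ← pow_mul, ← pow_mul, ← pow_mul, ← pow_mul,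
        ← pow_mul]
      congr 2 <;> ring
    have hpos : 0 < ((u ^ s) ^ (kap g + 2 * (4 * g + 2))) ^ d := by positivity
    refine Nat.le_of_mul_le_mul_right ?_ hpos
    calc M ^ kap0 g * 2 ^ (s * (4 * g + 2) * d) * ((u ^ s) ^ (kap g + 2 * (4 * g + 2))) ^ d
        = M ^ kap0 g * X ^ ((4 * g + 2) * d) := by rw [hXe]; ring
      _ ≤ M ^ kap0 g * (2 ^ k * (2 * L)) ^ ((4 * g + 2) * d) := by gcongr
      _ = (M ^ kap0 g * 2 ^ (k * (4 * g + 2) * d)) * ((2 * L) ^ (4 * g + 2)) ^ d := by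
          rw [mul_pow, ← pow_mul, ← pow_mul]
          ring
      _ ≤ (((4 ^ u) ^ kap0 g * C0 g * (u ^ s) ^ (kap g + 2 * (4 * g + 2))) ^ d * Δ) *
          ((8 * u ^ (q + 5)) ^ (4 * g + 2)) ^ d := by gcongr
      _ = _ := by rw [mul_pow, mul_pow, mul_pow, mul_pow]; ring

end Pool.Agent.U168.HY
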